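import Pool.Agent.H922R3.CL.Hyp

/-!
# Hyperbolic linear maps: cohomological equation, injectivity of `L ^ m - 1`
-/

set_option autoImplicit false
set_option linter.unusedSectionVars false

open Set Filter Topology Function

namespace Pool.Agent.R773.FC

open Pool.Agent.H922R3.CL (IsHypLin)

variable {W : Type*} [NormedAddCommGroup W] [NormedSpace ℝ W]

theorem eq_zero_of_le {v : W} {C μ : ℝ} (hμ : 0 < μ) (hμ1 : μ < 1) (M : ℝ)
    (h : ∀ n : ℕ, ∃ a ≥ n, ‖v‖ ≤ C * μ ^ a * M) : v = 0 := by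
  by_contra hv
  have hpos : 0 < ‖v‖ := norm_pos_iff.2 hv
  have ht : Tendsto (fun a : ℕ => C * μ ^ a * M) atTop (𝓝 (C * 0 * M)) :=
    ((tendsto_pow_atTop_nhds_zero_of_lt_one hμ.le hμ1).const_mul C).mul_const M
  rw [mul_zero, zero_mul] at ht
  obtain ⟨n, hn⟩ := eventually_atTop.1 (ht.eventually_lt_const hpos)
  obtain ⟨a, ha, hb⟩ := h n
  exact absurd (hn a ha) (not_lt.2 hb)

theorem iter_P {L : W ≃L[ℝ] W} {P : W →L[ℝ] W} (hLP : ∀ v, L (P v) = P (L v)) (n : ℕ) (v : W) :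
    L^[n] (P v) = P (L^[n] v) := by
  induction n with
  | zero => rfl
  | succ n ih => rw [iterate_succ_apply', ih, hLP, iterate_succ_apply']

theorem iter_sub (L : W ≃L[ℝ] W) (n : ℕ) (v w : W) : L^[n] (v - w) = L^[n] v - L^[n] w := by
  induction n with
  | zero => rfl
  | succ n ih => rw [iterate_succ_apply', ih, map_sub, iterate_succ_apply', iterate_succ_apply']

theorem iter_symm (L : W ≃L[ℝ] W) (n : ℕ) (v : W) : L.symm^[n] (L^[n] v) = v :=
  (L.toEquiv.left_inv.iterate n) v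

/-- `L ^ m - 1` is injective. -/
theorem fix_zero {L : W ≃L[ℝ] W} (hL : IsHypLin L) {m : ℕ} (hm : 1 ≤ m) {v : W}
    (hv : L^[m] v = v) : v = 0 := by
  obtain ⟨P, C, μ, hC, hμ, hμ1, hPP, hLP, hb⟩ := hL
  have h1 : ∀ n : ℕ, L^[m * n] v = v := by
    intro n
    rw [iterate_mul]
    exact iterate_fixed hv n
  have h2 : ∀ n : ℕ, n ≤ m * n := fun n => Nat.le_mul_of_pos_left n hm
  have hP : P v = 0 := by
    apply eq_zero_of_le (C := C) hμ hμ1 ‖v‖
    intro n
    refine ⟨m * n, h2 n, ?_⟩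
    have h3 := (hb (m * n) v).1
    rwa [iter_P hLP, h1] at h3
  have hQ : v - P v = 0 := by
    apply eq_zero_of_le (C := C) hμ hμ1 ‖v‖
    intro n
    refine ⟨m * n, h2 n, ?_⟩
    have h3 := (hb (m * n) v).2
    have h4 : L^[m * n] (v - P v) = v - P v := by
      rw [iter_sub, iter_P hLP, h1]
    rw [← h4, iter_symm] at h3
    exact h3
  rwa [hP, sub_zero] at hQ

theorem exists_bd {X : Type*} [TopologicalSpace X] [CompactSpace X] {φ : X → W}
    (hφ : Continuous φ) : ∃ M : ℝ, 0 ≤ M ∧ ∀ p, ‖φ p‖ ≤ M := by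
  rcases isEmpty_or_nonempty X with h | h
  · exact ⟨0, le_rfl, fun p => (h.false p).elim⟩
  · obtain ⟨p, -, hp⟩ := isCompact_univ.exists_isMaxOn univ_nonempty hφ.norm.continuousOn
    exact ⟨‖φ p‖, norm_nonneg _, fun q => hp (mem_univ q)⟩

/-- A bounded function with `d (T p) = L (d p)` is zero. -/
theorem zero_of_equiv {X : Type*} {L : W ≃L[ℝ] W} (hL : IsHypLin L) (T : X ≃ X) (d : X → W)
    (hd : ∀ p, d (T p) = L (d p)) {M : ℝ} (hM : ∀ p, ‖d p‖ ≤ M) (p : X) : d p = 0 := by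
  obtain ⟨P, C, μ, hC, hμ, hμ1, hPP, hLP, hb⟩ := hL
  have hit : ∀ (n : ℕ) (p : X), d (T^[n] p) = L^[n] (d p) := by
    intro n
    induction n with
    | zero => intro p; rfl
    | succ n ih => intro p; rw [iterate_succ_apply', hd, ih, iterate_succ_apply']
  have hP : P (d p) = 0 := by
    apply eq_zero_of_le (C := C) hμ hμ1 M
    intro n
    refine ⟨n, le_rfl, ?_⟩
    have h1 : T^[n] (T.symm^[n] p) = p := (T.right_inv.iterate n) p
    have h2 := hit n (T.symm^[n] p)
    rw [h1] at h2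
    rw [h2, ← iter_P hLP]
    refine ((hb n _).1).trans ?_
    exact mul_le_mul_of_nonneg_left (hM _) (by positivity)
  have hQ : d p - P (d p) = 0 := by
    apply eq_zero_of_le (C := C) hμ hμ1 M
    intro n
    refine ⟨n, le_rfl, ?_⟩
    have h2 : L.symm^[n] (d (T^[n] p) - P (d (T^[n] p))) = d p - P (d p) := by
      rw [hit, ← iter_P hLP, ← iter_sub, iter_symm]
    rw [← h2]
    refine ((hb n _).2).trans ?_
    exact mul_le_mul_of_nonneg_left (hM _) (by positivity)
  rwa [hP, sub_zero] at hQ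

/-- The cohomological equation `ψ ∘ T + φ = L ψ`. -/
theorem exists_psi {X : Type*} [TopologicalSpace X] [CompactSpace X] [CompleteSpace W]
    {L : W ≃L[ℝ] W} (hL : IsHypLin L) (T : X ≃ₜ X) (φ : X → W) (hφ : Continuous φ) :
    ∃ ψ : X → W, Continuous ψ ∧ ∀ p, ψ (T p) + φ p = L (ψ p) := by
  obtain ⟨P, C, μ, hC, hμ, hμ1, hPP, hLP, hb⟩ := hL
  obtain ⟨M, hM0, hM⟩ := exists_bd hφ
  have hgeo : Summable fun n : ℕ => C * μ ^ n * M :=
    ((summable_geometric_of_lt_one hμ.le hμ1).mul_left C).mul_right M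
  have b1 : ∀ (n : ℕ) (p : X), ‖L.symm^[n] (φ p - P (φ p))‖ ≤ C * μ ^ n * M := fun n p =>
    ((hb n _).2).trans (mul_le_mul_of_nonneg_left (hM p) (by positivity))
  have b2 : ∀ (n : ℕ) (p : X), ‖L^[n] (P (φ p))‖ ≤ C * μ ^ n * M := fun n p =>
    ((hb n _).1).trans (mul_le_mul_of_nonneg_left (hM p) (by positivity))
  have b3 : ∀ (n : ℕ) (p : X), ‖L.symm^[n + 1] (φ p - P (φ p))‖ ≤ C * μ ^ n * M := fun n p => by
    refine (b1 (n + 1) p).trans ?_
    apply mul_le_mul_of_nonneg_right _ hM0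
    apply mul_le_mul_of_nonneg_left _ hC.le
    exact pow_le_pow_of_le_one hμ.le hμ1.le (Nat.le_succ n)
  let U : X → W := fun p => ∑' n : ℕ, L.symm^[n + 1] (φ (T^[n] p) - P (φ (T^[n] p)))
  let S : X → W := fun p => ∑' n : ℕ, L^[n] (P (φ (T.symm^[n + 1] p)))
  have cL : ∀ n : ℕ, Continuous (L^[n]) := fun n => L.continuous.iterate n
  have cLs : ∀ n : ℕ, Continuous (L.symm^[n]) := fun n => L.symm.continuous.iterate n
  have cU : Continuous U := by
    apply continuous_tsum _ hgeo (fun n p => b3 n _)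
    intro n
    have h1 : Continuous fun p => φ (T^[n] p) := hφ.comp (T.continuous.iterate n)
    exact (cLs (n + 1)).comp (h1.sub (P.continuous.comp h1))
  have cS : Continuous S := by
    apply continuous_tsum _ hgeo (fun n p => b2 n _)
    intro n
    have h1 : Continuous fun p => φ (T.symm^[n + 1] p) :=
      hφ.comp (T.symm.continuous.iterate (n + 1))
    exact (cL n).comp (P.continuous.comp h1)
  have hU : ∀ p, L (U p) = (φ p - P (φ p)) + U (T p) := by
    intro p
    have s1 : Summable fun n : ℕ => L.symm^[n + 1] (φ (T^[n] p) - P (φ (T^[n] p))) :=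
      Summable.of_norm_bounded hgeo (fun n => b3 n _)
    have s2 : Summable fun n : ℕ => L.symm^[n] (φ (T^[n] p) - P (φ (T^[n] p))) :=
      Summable.of_norm_bounded hgeo (fun n => b1 n _)
    show L (∑' n : ℕ, L.symm^[n + 1] (φ (T^[n] p) - P (φ (T^[n] p)))) = _
    rw [L.map_tsum]
    have e1 : (fun n : ℕ => L (L.symm^[n + 1] (φ (T^[n] p) - P (φ (T^[n] p))))) =
        fun n : ℕ => L.symm^[n] (φ (T^[n] p) - P (φ (T^[n] p))) := by
      funext n
      rw [iterate_succ_apply', L.apply_symm_apply]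
    rw [e1, s2.tsum_eq_zero_add]
    rfl
  have hS : ∀ p, S (T p) = P (φ p) + L (S p) := by
    intro p
    have s1 : Summable fun n : ℕ => L^[n] (P (φ (T.symm^[n + 1] (T p)))) :=
      Summable.of_norm_bounded hgeo (fun n => b2 n _)
    show ∑' n : ℕ, L^[n] (P (φ (T.symm^[n + 1] (T p)))) = _
    rw [s1.tsum_eq_zero_add]
    congr 1
    · show P (φ (T.symm (T p))) = P (φ p)
      rw [T.symm_apply_apply]
    · show _ = L (∑' n : ℕ, L^[n] (P (φ (T.symm^[n + 1] p))))
      rw [L.map_tsum]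
      congr 1
      funext n
      rw [iterate_succ_apply' (⇑L) n, iterate_succ_apply (⇑T.symm) (n + 1), T.symm_apply_apply]
  refine ⟨fun p => U p - S p, cU.sub cS, fun p => ?_⟩
  show U (T p) - S (T p) + φ p = L (U p - S p)
  rw [map_sub, hU, hS]
  abel

end Pool.Agent.R773.FC
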