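import Pool.Agent.R773.FC.Loc
import Pool.Agent.R773.FC.Tor
import Pool.Agent.W564.SC.LibA

/-!
# Closing in Franks classes
-/

set_option autoImplicit false
set_option linter.unusedSectionVars false

open scoped Manifold ContDiff Topology
open Filter Set Metric

universe u v

namespace Pool.Agent.R773.FC

open Pool.Agent.H718R2.G Pool.Agent.W564.SC
open Pool.Agent.H922R3.CL (IsHypLin)
open Pool.Agent.W216.SC (exists_pos_le nonwand_long)

/-- Orbit segments starting near `z` (in the chart `χ`) which nearly close up. -/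
def RetAt (n : ℕ) {N : Type*} [TopologicalSpace N] (F : N → N)
    (χ : OpenPartialHomeomorph N (V n)) (z : N) : Prop :=
  ∀ (k : ℕ) (κ : ℝ), 0 < κ → ∃ (z' : N) (ρ : ℝ) (m : ℕ), z' ∈ χ.source ∧ ‖χ z' - χ z‖ < κ ∧
    0 < ρ ∧ ρ < κ ∧ 1 ≤ m ∧ F^[m] z' ∈ χ.source ∧ ‖χ (F^[m] z') - χ z'‖ < κ * ρ ^ k ∧
    ∀ i, 0 < i → i < m → F^[i] z' ∈ χ.source → 2 * ρ ≤ ‖χ (F^[i] z') - χ z'‖

theorem retAt_of_per {n : ℕ} {N : Type*} [TopologicalSpace N] {F : N → N}
    {χ : OpenPartialHomeomorph N (V n)} {z : N} (hs : z ∈ χ.source) (hz : IsPer F z) :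
    RetAt n F χ z := by
  intro k κ hκ
  obtain ⟨m, hm1, hmz⟩ := hz
  have hp : z ∈ Function.periodicPts F := Function.mk_mem_periodicPts (n := m) hm1 hmz
  have hmp := Function.minimalPeriod_pos_of_mem_periodicPts hp
  set mp := Function.minimalPeriod F z with hmpdef
  classical
  obtain ⟨c, hc, hcm'⟩ := exists_pos_le (Finset.Ico 1 mp)
    (fun i => if F^[i] z ∈ χ.source then ‖χ (F^[i] z) - χ z‖ else 1) (by
    intro i hi
    rw [Finset.mem_Ico] at hi
    split_ifs with hsrc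
    · apply norm_pos_iff.2
      rw [sub_ne_zero]
      intro h5
      have h6 := χ.injOn hsrc hs h5
      exact Function.not_isPeriodicPt_of_pos_of_lt_minimalPeriod (by omega) hi.2 h6
    · exact one_pos)
  refine ⟨z, min (c / 2) (κ / 2), mp, hs, by rw [sub_self, norm_zero]; exact hκ,
    lt_min (half_pos hc) (half_pos hκ), (min_le_right _ _).trans_lt (half_lt_self hκ), hmp,
    ?_, ?_, ?_⟩
  · rw [hmpdef, Function.iterate_minimalPeriod]
    exact hs
  · rw [hmpdef, Function.iterate_minimalPeriod, sub_self, norm_zero]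
    have : 0 < min (c / 2) (κ / 2) := lt_min (half_pos hc) (half_pos hκ)
    positivity
  · intro i hi0 hi1 hsrc
    have h5 := hcm' i (by rw [Finset.mem_Ico]; omega)
    rw [if_pos hsrc] at h5
    have h6 : min (c / 2) (κ / 2) ≤ c / 2 := min_le_left _ _
    linarith

section

variable {n : ℕ} {N : Type u} [TopologicalSpace N] [T2Space N] [CompactSpace N]
  [ChartedSpace (V n) N] [IsManifold (𝓡 n) ∞ N]
  {B : Type v} [MetricSpace B] [CompactSpace B]
  {W : Type} [NormedAddCommGroup W] [NormedSpace ℝ W] [FiniteDimensional ℝ W]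
  {Λ : AddSubgroup W} [DiscreteTopology Λ] [IsClosed (Λ : Set W)]

theorem nontriv [Nontrivial W] : Nontrivial (W ⧸ Λ) := by
  by_contra hcon
  rw [not_nontrivial_iff_subsingleton] at hcon
  have htop : ∀ w : W, w ∈ Λ := by
    intro w
    exact (QuotientAddGroup.eq_zero_iff w).1 (Subsingleton.elim _ _)
  have hd : IsOpen ({(0 : Λ)} : Set Λ) := isOpen_discrete _
  obtain ⟨O, hO, hO'⟩ := isOpen_induced_iff.1 hd
  have h0 : (0 : W) ∈ O := by
    have : (0 : Λ) ∈ Subtype.val ⁻¹' O := by rw [hO']; rfl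
    exact this
  obtain ⟨w, hw⟩ := exists_ne (0 : W)
  have hc : Tendsto (fun i : ℕ => ((1 : ℝ) / (i + 1)) • w) atTop (𝓝 ((0 : ℝ) • w)) :=
    tendsto_one_div_add_atTop_nhds_zero_nat.smul_const w
  rw [zero_smul] at hc
  obtain ⟨i, hi⟩ := (hc.eventually (hO.mem_nhds h0)).exists
  have h1 : (⟨((1 : ℝ) / (i + 1)) • w, htop _⟩ : Λ) ∈ Subtype.val ⁻¹' O := hi
  rw [hO'] at h1
  have h2 : ((1 : ℝ) / (i + 1)) • w = 0 := congrArg Subtype.val h1
  rcases smul_eq_zero.1 h2 with h3 | h3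
  · have : (0 : ℝ) < 1 / (i + 1) := by positivity
    linarith
  · exact hw h3

theorem iter_Θ' {r : ℕ∞} {F : DiffM n N r} {X : Type*} {T : X → X} {Θ : X → N}
    (hF : ∀ p, F (Θ p) = Θ (T p)) (i : ℕ) (p : X) : F^[i] (Θ p) = Θ (T^[i] p) := by
  induction i with
  | zero => rfl
  | succ i ih => rw [Function.iterate_succ_apply', ih, hF, Function.iterate_succ_apply']

/-- The semiconjugacy `h (b, y) = y + ψ (b, y)`. -/
def semi (ψ : B × (W ⧸ Λ) → W) (p : B × (W ⧸ Λ)) : W ⧸ Λ := p.2 + QuotientAddGroup.mk (ψ p)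

theorem semi_cont {ψ : B × (W ⧸ Λ) → W} (hψ : Continuous ψ) : Continuous (semi ψ) :=
  continuous_snd.add (QuotientAddGroup.continuous_mk.comp hψ)

theorem semi_T {A : W ≃L[ℝ] W} {f : B → B} {φ ψ : B × (W ⧸ Λ) → W}
    {T : B × (W ⧸ Λ) → B × (W ⧸ Λ)} (hT : Skew A Λ f φ T) (hψ : ∀ p, ψ (T p) + φ p = A (ψ p))
    (i : ℕ) (b : B) (z : W) : semi ψ (T^[i] (b, QuotientAddGroup.mk z)) =
      QuotientAddGroup.mk (A^[i] (z + ψ (b, QuotientAddGroup.mk z))) :=
  semi_iter hT hψ i b z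

theorem dist_mk_le (a b : W) :
    dist (QuotientAddGroup.mk a : W ⧸ Λ) (QuotientAddGroup.mk b) ≤ ‖a - b‖ := by
  rw [dist_eq_norm, ← QuotientAddGroup.mk_sub]
  exact QuotientAddGroup.norm_mk_le_norm

/-- The approximate closing statement. -/
theorem stepA [Nontrivial W] (hC : ∃ C : ℝ, ∀ z : W, ∃ u ∈ Λ, ‖z - u‖ ≤ C) {r : ℕ∞}
    (F : DiffM n N r) {A : W ≃L[ℝ] W} (hL : IsHypLin A) (hA : ∀ u, u ∈ Λ ↔ A u ∈ Λ)
    (f : B ≃ₜ B) {φ ψ : B × (W ⧸ Λ) → W} {T : B × (W ⧸ Λ) → B × (W ⧸ Λ)} (hTc : Continuous T)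
    (hT : Skew A Λ f φ T) (hψc : Continuous ψ) (hψ : ∀ p, ψ (T p) + φ p = A (ψ p))
    {Θ : B × (W ⧸ Λ) → N} (hΘ : Topology.IsEmbedding Θ) (hF : ∀ p, F (Θ p) = Θ (T p))
    {b₀ : B} (hb₀ : NonWand f b₀) (u : W ⧸ Λ) {η : ℝ} (hη : 0 < η) :
    ∃ y : W ⧸ Λ, dist (semi ψ (b₀, y)) u ≤ η ∧
      ∀ (z₀ : N) (χ : OpenPartialHomeomorph N (V n)), GoodChart n N χ z₀ →
        Θ (b₀, y) ∈ χ.source → ‖χ (Θ (b₀, y))‖ < 1 / 4 → RetAt n F χ (Θ (b₀, y)) := by
  have hcomp : CompactSpace (W ⧸ Λ) := Pool.Agent.W806.SC.comp hC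
  have hnt : Nontrivial (W ⧸ Λ) := nontriv
  obtain ⟨hps, hcm⟩ := t_EX2 W Λ hC A hL hA (bar A hA) (fun z => rfl)
  obtain ⟨ρ₀, R, hρ₀, hflex⟩ := Pool.Agent.W816.SC.flex (W ⧸ Λ) (bar A hA) hps hcm u η hη
  obtain ⟨K, hK, hlift⟩ := exists_lift' hL hTc hψc hT hψ
  -- the lifted periodic points
  have hlift2 : ∀ (b : B) (m : ℕ), 1 ≤ m → 2 * R ≤ m → ∃ (z u' : W),
      T^[m] (b, QuotientAddGroup.mk z) = (f^[m] b, QuotientAddGroup.mk z) ∧
      dist (QuotientAddGroup.mk u' : W ⧸ Λ) u < η ∧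
      (∀ i, R ≤ i → i + R ≤ m →
        ρ₀ ≤ dist (QuotientAddGroup.mk (A^[i] u') : W ⧸ Λ) (QuotientAddGroup.mk u')) ∧
      ∀ j < m, ‖A^[j] (z + ψ (b, QuotientAddGroup.mk z)) - A^[j] u'‖ ≤
        K * ‖ψ (f^[m] b, QuotientAddGroup.mk z) - ψ (b, QuotientAddGroup.mk z)‖ := by
    intro b m hm hmR
    obtain ⟨p', hp1, hp2, hp3⟩ := hflex m hmR
    obtain ⟨u', rfl⟩ := QuotientAddGroup.mk_surjective p'
    rw [bar_iter] at hp2
    have hu' : A^[m] u' - u' ∈ Λ := by
      apply (QuotientAddGroup.eq_zero_iff _).1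
      rw [QuotientAddGroup.mk_sub, hp2, sub_self]
    obtain ⟨z, hz1, hz2⟩ := hlift b m hm u' hu'
    refine ⟨z, u', hz1, hp1, fun i hi him => ?_, hz2⟩
    have := hp3 i hi him
    rwa [bar_iter] at this
  have hsemi0 : ∀ (b : B) (z : W), semi ψ (b, QuotientAddGroup.mk z) =
      QuotientAddGroup.mk (z + ψ (b, QuotientAddGroup.mk z)) := fun b z => semi_T hT hψ 0 b z
  by_cases hper : ∃ b : ℕ, 1 ≤ b ∧ f^[b] b₀ = b₀
  · -- periodic base point
    obtain ⟨b, hb, hbx⟩ := hper
    set m := b * (2 * R + 1) with hm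
    have hm1 : 1 ≤ m := Nat.mul_pos hb (by omega)
    have hm2 : 2 * R ≤ m := by
      have : 1 * (2 * R + 1) ≤ b * (2 * R + 1) := Nat.mul_le_mul_right _ hb
      omega
    have hxm : f^[m] b₀ = b₀ := by
      have h4 : Function.IsPeriodicPt f b b₀ := hbx
      exact h4.mul_const (2 * R + 1)
    obtain ⟨z, u', h1, h2, h3, h4⟩ := hlift2 b₀ m hm1 hm2
    rw [hxm] at h1 h4
    refine ⟨QuotientAddGroup.mk z, ?_, fun z₀ χ hχ hs hs' => ?_⟩
    · have h5 := h4 0 (by omega)
      rw [sub_self, norm_zero, mul_zero] at h5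
      simp only [Function.iterate_zero, id] at h5
      have h6 : dist (semi ψ (b₀, QuotientAddGroup.mk z)) (QuotientAddGroup.mk u') ≤ 0 := by
        rw [hsemi0]
        exact (dist_mk_le _ _).trans h5
      have h7 := dist_triangle (semi ψ (b₀, QuotientAddGroup.mk z)) (QuotientAddGroup.mk u') u
      linarith
    · apply retAt_of_per hs
      refine ⟨m, hm1, ?_⟩
      rw [iter_Θ' hF, h1]
  · -- not periodic
    push Not at hper
    have hsymm : ∀ i : ℕ, 1 ≤ i → f.symm^[i] b₀ ≠ b₀ := by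
      intro i hi h5
      apply hper i hi
      have h6 : f^[i] (f.symm^[i] b₀) = b₀ := (f.toEquiv.right_inv.iterate i) b₀
      conv_lhs => rw [← h5]
      exact h6
    have hseq : ∀ j : ℕ, ∃ (x : B) (m : ℕ) (z u' : W), 1 ≤ m ∧ dist x b₀ < 1 / (j + 1) ∧
        dist (f^[m] x) b₀ < 1 / (j + 1) ∧
        T^[m] (x, QuotientAddGroup.mk z) = (f^[m] x, QuotientAddGroup.mk z) ∧
        dist (QuotientAddGroup.mk u' : W ⧸ Λ) u < η ∧
        (∀ i, R ≤ i → i + R ≤ m →
          ρ₀ ≤ dist (QuotientAddGroup.mk (A^[i] u') : W ⧸ Λ) (QuotientAddGroup.mk u')) ∧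
        ∀ i < m, ‖A^[i] (z + ψ (x, QuotientAddGroup.mk z)) - A^[i] u'‖ ≤
          K * ‖ψ (f^[m] x, QuotientAddGroup.mk z) - ψ (x, QuotientAddGroup.mk z)‖ := by
      intro j
      obtain ⟨x, m, hmR, hm1, hx, hxm⟩ := nonwand_long f hb₀ hper (1 / ((j : ℝ) + 1))
        (by positivity) (2 * R)
      obtain ⟨z, u', h1, h2, h3, h4⟩ := hlift2 x m hm1 hmR
      exact ⟨x, m, z, u', hm1, hx, hxm, h1, h2, h3, h4⟩
    choose x m z u' hm1 hx hxm hTm hu' hsepu hsh using hseq
    -- a limit point of the fibre coordinates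
    obtain ⟨y, -, σ, hσ, hy⟩ := isCompact_univ.tendsto_subseq
      (x := fun j => (QuotientAddGroup.mk (z j) : W ⧸ Λ)) (fun j => mem_univ _)
    have hlim0 : Tendsto (fun j : ℕ => (1 : ℝ) / ((σ j : ℝ) + 1)) atTop (𝓝 0) :=
      tendsto_one_div_add_atTop_nhds_zero_nat.comp hσ.tendsto_atTop
    have hxlim : Tendsto (fun j => x (σ j)) atTop (𝓝 b₀) := by
      rw [tendsto_iff_dist_tendsto_zero]
      exact squeeze_zero (fun j => dist_nonneg) (fun j => (hx (σ j)).le) hlim0
    have hxmlim : Tendsto (fun j => f^[m (σ j)] (x (σ j))) atTop (𝓝 b₀) := by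
      rw [tendsto_iff_dist_tendsto_zero]
      exact squeeze_zero (fun j => dist_nonneg) (fun j => (hxm (σ j)).le) hlim0
    have hy' : Tendsto (fun j => (QuotientAddGroup.mk (z (σ j)) : W ⧸ Λ)) atTop (𝓝 y) := hy
    have hp : Tendsto (fun j => (x (σ j), (QuotientAddGroup.mk (z (σ j)) : W ⧸ Λ))) atTop
        (𝓝 (b₀, y)) := hxlim.prodMk_nhds hy'
    have hq : Tendsto (fun j => (f^[m (σ j)] (x (σ j)), (QuotientAddGroup.mk (z (σ j)) : W ⧸ Λ)))
        atTop (𝓝 (b₀, y)) := hxmlim.prodMk_nhds hy'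
    have hδ : Tendsto (fun j => K * ‖ψ (f^[m (σ j)] (x (σ j)), QuotientAddGroup.mk (z (σ j))) -
        ψ (x (σ j), QuotientAddGroup.mk (z (σ j)))‖) atTop (𝓝 0) := by
      have h1 := (hψc.tendsto (b₀, y)).comp hq
      have h2 := (hψc.tendsto (b₀, y)).comp hp
      have h3 := ((h1.sub h2).norm).const_mul K
      rw [sub_self, norm_zero, mul_zero] at h3
      exact h3
    refine ⟨y, ?_, fun z₀ χ hχ hs hs' => ?_⟩
    · -- the position of the limit
      have h1 : Tendsto (fun j => dist (semi ψ (x (σ j), QuotientAddGroup.mk (z (σ j)))) u) atTop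
          (𝓝 (dist (semi ψ (b₀, y)) u)) :=
        (((semi_cont hψc).tendsto (b₀, y)).comp hp).dist tendsto_const_nhds
      have h2 : Tendsto (fun j => K * ‖ψ (f^[m (σ j)] (x (σ j)), QuotientAddGroup.mk (z (σ j))) -
        ψ (x (σ j), QuotientAddGroup.mk (z (σ j)))‖ + η) atTop (𝓝 (0 + η)) :=
        hδ.add tendsto_const_nhds
      rw [zero_add] at h2
      refine le_of_tendsto_of_tendsto' h1 h2 (fun j => ?_)
      have h3 := hsh (σ j) 0 (hm1 _)
      simp only [Function.iterate_zero, id] at h3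
      rw [hsemi0]
      have h4 := dist_triangle (QuotientAddGroup.mk (z (σ j) + ψ (x (σ j),
        QuotientAddGroup.mk (z (σ j)))) : W ⧸ Λ) (QuotientAddGroup.mk (u' (σ j))) u
      have h5 := dist_mk_le (Λ := Λ) (z (σ j) + ψ (x (σ j), QuotientAddGroup.mk (z (σ j))))
        (u' (σ j))
      have h6 := (hu' (σ j)).le
      linarith
    · intro k κ hκ
      -- separation constants of the base
      obtain ⟨c1, hc1, hc1m⟩ := exists_pos_le (Finset.Ico 1 R) (fun i => dist (f^[i] b₀) b₀) (by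
        intro i hi
        rw [Finset.mem_Ico] at hi
        exact dist_pos.2 (hper i hi.1))
      obtain ⟨c2, hc2, hc2m⟩ := exists_pos_le (Finset.Ico 1 R)
        (fun i => dist (f.symm^[i] b₀) b₀) (by
        intro i hi
        rw [Finset.mem_Ico] at hi
        exact dist_pos.2 (hsymm i hi.1))
      set c := min c1 c2 with hc
      have hc0 : 0 < c := lt_min hc1 hc2
      have hc4 : 0 < c / 4 := by linarith
      have hev : ∀ᶠ x' in 𝓝 b₀, ∀ i ∈ Finset.Ico 1 R, dist (f^[i] x') (f^[i] b₀) < c / 4 ∧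
          dist (f.symm^[i] x') (f.symm^[i] b₀) < c / 4 := by
        rw [Finset.eventually_all]
        intro i _
        have h5 : ContinuousAt (f^[i]) b₀ := (f.continuous.iterate i).continuousAt
        have h6 : ContinuousAt (f.symm^[i]) b₀ := (f.symm.continuous.iterate i).continuousAt
        exact (h5.eventually_mem (Metric.ball_mem_nhds _ hc4)).and
          (h6.eventually_mem (Metric.ball_mem_nhds _ hc4))
      set d0 := min (c / 2) (ρ₀ / 2) with hd0
      have hd0' : 0 < d0 := lt_min (half_pos hc0) (half_pos hρ₀)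
      -- uniform continuity of `g = (fst, semi)`
      have hgc : Continuous (fun p : B × (W ⧸ Λ) => (p.1, semi ψ p)) :=
        continuous_fst.prodMk (semi_cont hψc)
      have hgu := CompactSpace.uniformContinuous_of_continuous hgc
      rw [Metric.uniformContinuous_iff] at hgu
      obtain ⟨d1, hd1, hgu⟩ := hgu d0 hd0'
      obtain ⟨ρ1, hρ1, hsep⟩ := Pool.Agent.W216.SC.sep hΘ hχ hd1
      set ρ := min (ρ1 / 2) (κ / 2) with hρ
      have hρ' : 0 < ρ := lt_min (half_pos hρ1) (half_pos hκ)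
      have hρκ : ρ < κ := (min_le_right _ _).trans_lt (half_lt_self hκ)
      have hκρ : 0 < κ * ρ ^ k := by positivity
      -- continuity of the chart
      have hχc : ContinuousAt (fun p : B × (W ⧸ Λ) => χ (Θ p)) (b₀, y) := by
        apply ContinuousAt.comp (f := Θ) (g := χ)
        · exact χ.continuousAt hs
        · exact hΘ.continuous.continuousAt
      have hsrc : ∀ᶠ p in 𝓝 (b₀, y), Θ p ∈ χ.source :=
        hΘ.continuous.continuousAt.eventually_mem (χ.open_source.mem_nhds hs)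
      have e1 := hp.eventually hsrc
      have e2 := hq.eventually hsrc
      have t1 : Tendsto (fun j => χ (Θ (x (σ j), (QuotientAddGroup.mk (z (σ j)) : W ⧸ Λ)))) atTop
        (𝓝 (χ (Θ (b₀, y)))) := hχc.tendsto.comp hp
      have t2 : Tendsto (fun j => χ (Θ (f^[m (σ j)] (x (σ j)),
        (QuotientAddGroup.mk (z (σ j)) : W ⧸ Λ)))) atTop (𝓝 (χ (Θ (b₀, y)))) :=
        hχc.tendsto.comp hq
      have e3 : ∀ᶠ j in atTop, ‖χ (Θ (x (σ j), (QuotientAddGroup.mk (z (σ j)) : W ⧸ Λ))) -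
          χ (Θ (b₀, y))‖ < κ := by
        have := (t1.sub_const (χ (Θ (b₀, y)))).norm
        rw [sub_self, norm_zero] at this
        exact this.eventually_lt_const hκ
      have e4 : ∀ᶠ j in atTop, ‖χ (Θ (x (σ j), (QuotientAddGroup.mk (z (σ j)) : W ⧸ Λ)))‖ <
          1 / 2 := t1.norm.eventually_lt_const (by linarith)
      have e5 : ∀ᶠ j in atTop, ‖χ (Θ (f^[m (σ j)] (x (σ j)),
          (QuotientAddGroup.mk (z (σ j)) : W ⧸ Λ))) -
          χ (Θ (x (σ j), (QuotientAddGroup.mk (z (σ j)) : W ⧸ Λ)))‖ < κ * ρ ^ k := by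
        have := (t2.sub t1).norm
        rw [sub_self, norm_zero] at this
        exact this.eventually_lt_const hκρ
      have e6 := hδ.eventually_lt_const (show (0 : ℝ) < ρ₀ / 4 by linarith)
      have e7 := hxlim.eventually hev
      have e8 := hxmlim.eventually hev
      have e9 : ∀ᶠ j in atTop, dist (x (σ j)) b₀ < c / 4 :=
        hxlim.eventually (Metric.ball_mem_nhds _ hc4)
      obtain ⟨j, f1, f2, f3, f4, f5, f6, f7, f8, f9⟩ := (e1.and (e2.and (e3.and (e4.and
        (e5.and (e6.and (e7.and (e8.and e9)))))))).exists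
      set J := σ j with hJ
      set p := (x J, (QuotientAddGroup.mk (z J) : W ⧸ Λ)) with hpdef
      have hit : ∀ i, F^[i] (Θ p) = Θ (T^[i] p) := fun i => iter_Θ' hF i p
      refine ⟨Θ p, ρ, m J, f1, f3, hρ', hρκ, hm1 J, ?_, ?_, ?_⟩
      · rw [hit, hTm]
        exact f2
      · rw [hit, hTm]
        exact f5
      · intro i hi0 him hsrc'
        rw [hit] at hsrc' ⊢
        have hfar : d0 ≤ dist ((T^[i] p).1, semi ψ (T^[i] p)) (p.1, semi ψ p) := by
          rw [Prod.dist_eq]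
          by_cases hiR : i < R
          · refine le_trans (min_le_left _ _) (le_trans ?_ (le_max_left _ _))
            have hmemi : i ∈ Finset.Ico 1 R := by rw [Finset.mem_Ico]; omega
            have h5 := hc1m i hmemi
            have h6 := (f7 i hmemi).1
            have h7 : c ≤ c1 := min_le_left _ _
            have h8 := dist_triangle4 (f^[i] b₀) (f^[i] (x J)) (x J) b₀
            rw [dist_comm (f^[i] b₀) (f^[i] (x J))] at h8
            show c / 2 ≤ dist (T^[i] p).1 (x J)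
            rw [hpdef, fst_iter hT]
            linarith
          · by_cases hiR2 : m J < i + R
            · refine le_trans (min_le_left _ _) (le_trans ?_ (le_max_left _ _))
              have hmemi : m J - i ∈ Finset.Ico 1 R := by rw [Finset.mem_Ico]; omega
              have h5 := hc2m (m J - i) hmemi
              have h6 := (f8 (m J - i) hmemi).2
              have h7 : c ≤ c2 := min_le_right _ _
              have h9 : f.symm^[m J - i] (f^[m J] (x J)) = f^[i] (x J) := by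
                have h10 : m J = (m J - i) + i := by omega
                have h11 : f^[m J] (x J) = f^[m J - i] (f^[i] (x J)) := by
                  conv_lhs => rw [h10]
                  exact Function.iterate_add_apply _ _ _ _
                rw [h11]
                exact (f.toEquiv.left_inv.iterate (m J - i)) _
              rw [h9] at h6
              have h8 := dist_triangle4 (f.symm^[m J - i] b₀) (f^[i] (x J)) (x J) b₀
              rw [dist_comm (f.symm^[m J - i] b₀) (f^[i] (x J))] at h8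
              show c / 2 ≤ dist (T^[i] p).1 (x J)
              rw [hpdef, fst_iter hT]
              linarith
            · refine le_trans (min_le_right _ _) (le_trans ?_ (le_max_right _ _))
              have h1 := hsepu J i (by omega) (by omega)
              have h2 := (hsh J i him).trans f6.le
              have h3 := (hsh J 0 (hm1 J)).trans f6.le
              simp only [Function.iterate_zero, id] at h3
              show ρ₀ / 2 ≤ dist (semi ψ (T^[i] p)) (semi ψ p)
              rw [hpdef, semi_T hT hψ, hsemi0]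
              have h4 := dist_mk_le (Λ := Λ)
                (A^[i] (z J + ψ (x J, QuotientAddGroup.mk (z J)))) (A^[i] (u' J))
              have h5 := dist_mk_le (Λ := Λ) (z J + ψ (x J, QuotientAddGroup.mk (z J))) (u' J)
              have h6 := dist_triangle4 (QuotientAddGroup.mk (A^[i] (u' J)) : W ⧸ Λ)
                (QuotientAddGroup.mk (A^[i] (z J + ψ (x J, QuotientAddGroup.mk (z J)))))
                (QuotientAddGroup.mk (z J + ψ (x J, QuotientAddGroup.mk (z J))))
                (QuotientAddGroup.mk (u' J))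
              rw [dist_comm (QuotientAddGroup.mk (A^[i] (u' J)) : W ⧸ Λ) (QuotientAddGroup.mk
                (A^[i] (z J + ψ (x J, QuotientAddGroup.mk (z J)))))] at h6
              linarith
        have hd1' : d1 ≤ dist (T^[i] p) p := by
          by_contra hcon
          push Not at hcon
          have h1 := hgu hcon
          linarith
        have h5 := hsep p (T^[i] p) hd1' f1 f4 hsrc'
        have h6 : ρ ≤ ρ1 / 2 := min_le_left _ _
        linarith

/-- The closing theorem in Franks classes, as a statement on orbit segments. -/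
theorem stepB [Nontrivial W] (hC : ∃ C : ℝ, ∀ z : W, ∃ u ∈ Λ, ‖z - u‖ ≤ C) {r : ℕ∞}
    (F : DiffM n N r) {A : W ≃L[ℝ] W} (hL : IsHypLin A) (hA : ∀ u, u ∈ Λ ↔ A u ∈ Λ)
    (f : B ≃ₜ B) {φ ψ : B × (W ⧸ Λ) → W} {T : B × (W ⧸ Λ) → B × (W ⧸ Λ)} (hTc : Continuous T)
    (hT : Skew A Λ f φ T) (hψc : Continuous ψ) (hψ : ∀ p, ψ (T p) + φ p = A (ψ p))
    {Θ : B × (W ⧸ Λ) → N} (hΘ : Topology.IsEmbedding Θ) (hF : ∀ p, F (Θ p) = Θ (T p))
    {b₀ : B} (hb₀ : NonWand f b₀) (u : W ⧸ Λ) :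
    ∃ y : W ⧸ Λ, semi ψ (b₀, y) = u ∧
      ∀ χ : OpenPartialHomeomorph N (V n), GoodChart n N χ (Θ (b₀, y)) → Ret n F χ := by
  have hcomp : CompactSpace (W ⧸ Λ) := Pool.Agent.W806.SC.comp hC
  have hseq : ∀ j : ℕ, ∃ y : W ⧸ Λ, dist (semi ψ (b₀, y)) u ≤ 1 / ((j : ℝ) + 1) ∧
      ∀ (z₀ : N) (χ : OpenPartialHomeomorph N (V n)), GoodChart n N χ z₀ →
        Θ (b₀, y) ∈ χ.source → ‖χ (Θ (b₀, y))‖ < 1 / 4 → RetAt n F χ (Θ (b₀, y)) := fun j =>
    stepA hC F hL hA f hTc hT hψc hψ hΘ hF hb₀ u (by positivity)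
  choose y hy1 hy2 using hseq
  obtain ⟨y₀, -, σ, hσ, hlim⟩ := isCompact_univ.tendsto_subseq (x := y) (fun j => mem_univ _)
  have hlim0 : Tendsto (fun j : ℕ => (1 : ℝ) / ((σ j : ℝ) + 1)) atTop (𝓝 0) :=
    tendsto_one_div_add_atTop_nhds_zero_nat.comp hσ.tendsto_atTop
  have hp : Tendsto (fun j => (b₀, y (σ j))) atTop (𝓝 (b₀, y₀)) :=
    tendsto_const_nhds.prodMk_nhds hlim
  refine ⟨y₀, ?_, fun χ hχ => ?_⟩
  · have h1 : Tendsto (fun j => dist (semi ψ (b₀, y (σ j))) u) atTop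
        (𝓝 (dist (semi ψ (b₀, y₀)) u)) :=
      (((semi_cont hψc).tendsto (b₀, y₀)).comp hp).dist tendsto_const_nhds
    have h2 : dist (semi ψ (b₀, y₀)) u ≤ 0 :=
      le_of_tendsto_of_tendsto' h1 hlim0 (fun j => hy1 (σ j))
    exact dist_le_zero.1 h2
  · intro k κ hκ
    have hs := hχ.src
    have hχc : ContinuousAt (fun p : B × (W ⧸ Λ) => χ (Θ p)) (b₀, y₀) := by
      apply ContinuousAt.comp (f := Θ) (g := χ)
      · exact χ.continuousAt hs
      · exact hΘ.continuous.continuousAt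
    have hsrc : ∀ᶠ p in 𝓝 (b₀, y₀), Θ p ∈ χ.source :=
      hΘ.continuous.continuousAt.eventually_mem (χ.open_source.mem_nhds hs)
    have e1 := hp.eventually hsrc
    have t1 : Tendsto (fun j => ‖χ (Θ (b₀, y (σ j)))‖) atTop (𝓝 0) := by
      have := (hχc.tendsto.comp hp).norm
      rw [show χ (Θ (b₀, y₀)) = 0 from hχ.zero, norm_zero] at this
      exact this
    have e2 := t1.eventually_lt_const (show (0 : ℝ) < 1 / 4 by norm_num)
    have e3 := t1.eventually_lt_const (half_pos hκ)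
    obtain ⟨j, f1, f2, f3⟩ := (e1.and (e2.and e3)).exists
    obtain ⟨z', ρ, m, h1, h2, h3, h4, h5, h6, h7, h8⟩ := hy2 (σ j) _ χ hχ f1 f2 k (κ / 2)
      (half_pos hκ)
    refine ⟨z', ρ, m, h1, ?_, h3, by linarith, h5, h6, h7.trans_le ?_, h8⟩
    · have := norm_sub_norm_le (χ z') (χ (Θ (b₀, y (σ j))))
      linarith
    · have : 0 ≤ ρ ^ k := by positivity
      nlinarith

end

end Pool.Agent.R773.FC
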