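import Pool.Agent.R773.FC.Loc
import Pool.Agent.W564.SC.LibE

/-!
# Returns near points which cannot be closed locally
-/

set_option autoImplicit false
set_option linter.unusedSectionVars false

open scoped Manifold ContDiff Topology
open Filter Set Metric

universe u

namespace Pool.Agent.R773.FC

open Pool.Agent.H718R2.G Pool.Agent.W564.SC
open Pool.Agent.W723.SC (it_nat fin_time exp_bd)

/-- In the neighbourhood `W` of the centre of the chart `χ` all returns are at most exponentially fast,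
with the rate `C`. -/
def SlowReturns (n : ℕ) {N : Type*} [TopologicalSpace N] (F : N → N)
    (χ : OpenPartialHomeomorph N (V n)) (C : ℝ) (W : Set N) : Prop :=
  W ⊆ χ.source ∧ ∃ c : ℝ, 0 < c ∧ ∀ y ∈ W, ∀ m : ℕ, 1 ≤ m → F^[m] y ∈ χ.source →
    c * Real.exp (-(C * m)) ≤ ‖χ (F^[m] y) - χ y‖

theorem slow (h1 : S_ACM.{u}) (h2 : S_ABS) (n : ℕ) (N : Type u) [TopologicalSpace N] [T2Space N]
    [CompactSpace N] [ChartedSpace (V n) N] [IsManifold (𝓡 n) ∞ N] (r : ℕ∞) (hr : 2 ≤ r)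
    (F : DiffM n N r) : ∃ C : ℕ → ℝ, Monotone C ∧ ∀ (z : N) (χ : OpenPartialHomeomorph N (V n)),
      GoodChart n N χ z → ∀ k : ℕ, 1 ≤ k → RetK n F χ k ∨ IsPer F z ∨
        ∃ W ∈ 𝓝 z, SlowReturns n F χ (C k) W := by
  obtain ⟨K, hK, hACM⟩ := h1 n N r hr F
  have hK0 : 0 < K := by linarith
  have hlogK : 0 ≤ Real.log K := Real.log_nonneg (by linarith)
  choose a ha using fun k : ℕ => h2 n (max k 1) (le_max_right _ _)
  obtain ⟨C, hC⟩ : ∃ C : ℕ → ℝ, C = fun k => ∑ j ∈ Finset.range (k + 1), (a j : ℝ) * Real.log K :=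
    ⟨_, rfl⟩
  have hCmono : Monotone C := by
    refine monotone_nat_of_le_succ fun k => ?_
    rw [hC]
    simp only
    rw [Finset.sum_range_succ (n := k + 1)]
    have : 0 ≤ (a (k + 1) : ℝ) * Real.log K := mul_nonneg (Nat.cast_nonneg _) hlogK
    linarith
  have hCa : ∀ k, (a k : ℝ) * Real.log K ≤ C k := by
    intro k
    rw [hC]
    simp only
    exact Finset.single_le_sum (f := fun j => (a j : ℝ) * Real.log K)
      (fun j _ => mul_nonneg (Nat.cast_nonneg _) hlogK) (Finset.mem_range.2 (Nat.lt_succ_self k))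
  have hC0 : ∀ k, 0 ≤ C k := fun k => (mul_nonneg (Nat.cast_nonneg _) hlogK).trans (hCa k)
  refine ⟨C, hCmono, ?_⟩
  intro z χ hχ k hk
  by_cases hret : RetK n F χ k
  · exact Or.inl hret
  right
  by_cases hper : IsPer F z
  · exact Or.inl hper
  right
  unfold RetK at hret
  push Not at hret
  obtain ⟨κ, hκ, hno⟩ := hret
  obtain ⟨m₀, hm₀⟩ := hACM χ z hχ
  obtain ⟨κ', hκ'⟩ : ∃ κ' : ℝ, κ' = min κ (1 / 16) := ⟨_, rfl⟩
  have hκ'0 : 0 < κ' := by rw [hκ']; exact lt_min hκ (by norm_num)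
  have hκ'1 : κ' ≤ 1 / 16 := by rw [hκ']; exact min_le_right _ _
  have hκ'2 : κ' ≤ κ := by rw [hκ']; exact min_le_left _ _
  obtain ⟨Λ₀, hΛ₀⟩ := ha k κ' hκ'0 hκ'1
  rw [max_eq_left hk] at hΛ₀
  obtain ⟨M₁, hM₁⟩ := Filter.eventually_atTop.1
    ((tendsto_pow_atTop_atTop_of_one_lt (by linarith : (1 : ℝ) < K)).eventually_ge_atTop Λ₀)
  obtain ⟨W, hW, c, hc, hWc⟩ := fin_time F F.continuous χ z hχ
    (fun m hm1 hmz => hper ⟨m, hm1, hmz⟩) (max m₀ M₁)
  have hW2 : χ ⁻¹' (ball (0 : V n) κ') ∈ 𝓝 z := by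
    refine (χ.continuousAt hχ.src).preimage_mem_nhds ?_
    rw [hχ.zero]
    exact ball_mem_nhds _ hκ'0
  refine ⟨W ∩ (χ.source ∩ χ ⁻¹' (ball (0 : V n) κ')),
    inter_mem hW (inter_mem (χ.open_source.mem_nhds hχ.src) hW2), ?_, min c (1 / 8),
    lt_min hc (by norm_num), ?_⟩
  · rintro y ⟨_, hy, _⟩
    exact hy
  rintro y ⟨hyW, hys, hyb⟩ m hm hmy
  have hyκ : ‖χ y‖ < κ' := by simpa using hyb
  have hexp1 : Real.exp (-(C k * m)) ≤ 1 := by
    rw [Real.exp_le_one_iff]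
    have := mul_nonneg (hC0 k) (Nat.cast_nonneg m)
    linarith
  have hexp0 : 0 < Real.exp (-(C k * m)) := Real.exp_pos _
  by_cases hmM : m < max m₀ M₁
  · calc min c (1 / 8) * Real.exp (-(C k * m)) ≤ c * 1 :=
        mul_le_mul (min_le_left _ _) hexp1 hexp0.le hc.le
      _ = c := mul_one c
      _ ≤ _ := hWc y hyW m hm hmM hmy
  · by_contra hlt
    push Not at hlt
    have hm0 : m₀ ≤ m := (le_max_left _ _).trans (not_lt.1 hmM)
    have hm1 : M₁ ≤ m := (le_max_right _ _).trans (not_lt.1 hmM)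
    obtain ⟨A, hA⟩ := hm₀ m hm0 y hys (hyκ.le.trans hκ'1)
    have hlt8 : ‖χ (F^[m] y) - χ y‖ < 1 / 8 := by
      refine hlt.trans_le ?_
      calc min c (1 / 8) * Real.exp (-(C k * m)) ≤ 1 / 8 * 1 :=
          mul_le_mul (min_le_right _ _) hexp1 hexp0.le (by norm_num)
        _ = 1 / 8 := by norm_num
    have hlta : ‖χ (F^[m] y) - χ y‖ ≤ ((K ^ m)⁻¹) ^ a k := by
      refine hlt.le.trans ?_
      rw [exp_bd hK]
      calc min c (1 / 8) * Real.exp (-(C k * m)) ≤ 1 * Real.exp (-(C k * m)) :=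
          mul_le_mul_of_nonneg_right ((min_le_right _ _).trans (by norm_num)) hexp0.le
        _ = Real.exp (-(C k * m)) := one_mul _
        _ ≤ _ := by
          rw [Real.exp_le_exp]
          have := mul_le_mul_of_nonneg_right (hCa k) (Nat.cast_nonneg (α := ℝ) m)
          linarith
    have hmK : (m : ℝ) ≤ K ^ m := by
      calc (m : ℝ) ≤ 2 ^ m := by exact_mod_cast Nat.lt_two_pow_self.le
        _ ≤ K ^ m := pow_le_pow_left₀ (by norm_num) hK m
    have hPm : it F (m : ℤ) y ∈ χ.source ∧ ‖χ (it F (m : ℤ) y)‖ ≤ 1 / 4 := by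
      rw [it_nat]
      refine ⟨hmy, ?_⟩
      calc ‖χ (F^[m] y)‖ = ‖(χ (F^[m] y) - χ y) + χ y‖ := by rw [sub_add_cancel]
        _ ≤ ‖χ (F^[m] y) - χ y‖ + ‖χ y‖ := norm_add_le _ _
        _ ≤ 1 / 4 := by linarith
    obtain ⟨q, ρ, hq1, hqm, hPq, hρ0, hρκ, hvq, hlow⟩ := hΛ₀ m (K ^ m) _ _ A hA (hM₁ m hm1) hmK hm
      hPm (by simpa only [it_nat] using hlta)
    obtain ⟨q', rfl⟩ := Int.eq_ofNat_of_zero_le (by omega : 0 ≤ q)
    simp only [it_nat] at hPq hvq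
    obtain ⟨i, hi0, hiq, his, hlt2⟩ := hno y ρ q' hys (hyκ.trans_le hκ'2) hρ0
      (hρκ.trans_le hκ'2) (by exact_mod_cast hq1) hPq.1
      (hvq.trans_le (mul_le_mul_of_nonneg_right hκ'2 (by positivity)))
    by_cases h4 : ‖χ (F^[i] y)‖ ≤ 1 / 4
    · have := hlow (i : ℤ) (by exact_mod_cast hi0) (by exact_mod_cast hiq)
        (by rw [it_nat]; exact ⟨his, h4⟩)
      rw [it_nat] at this
      linarith
    · push Not at h4
      have e2 : ‖χ (F^[i] y)‖ ≤ ‖χ (F^[i] y) - χ y‖ + ‖χ y‖ := by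
        calc ‖χ (F^[i] y)‖ = ‖(χ (F^[i] y) - χ y) + χ y‖ := by rw [sub_add_cancel]
          _ ≤ _ := norm_add_le _ _
      linarith

end Pool.Agent.R773.FC
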